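import Mathlib
import Pool.Agent.Helper32.CL.St4

set_option autoImplicit false

namespace Pool.Agent.Helper98.CL

open Helper32.CL Helper35.PI Helper35.PI2
open scoped ContDiff Manifold Topology ENNReal BigOperators
open MeasureTheory Set Filter

theorem AZ_dn_ne (δ : ℝ) (hδ : 0 < δ) (p : ℝ × ℝ × ℝ) : dn δ p ≠ 0 := by
  unfold dn
  have h1 : 0 ≤ p.2.1 ^ 4 := by positivity
  have h2 : 0 < δ ^ 4 := by positivity
  linarith

theorem AZ_diff (δ : ℝ) (hδ : 0 < δ) : Differentiable ℝ (fD δ) := by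
  intro p
  have hd : dn δ p ≠ 0 := AZ_dn_ne δ hδ p
  have h1 : DifferentiableAt ℝ (fun p : ℝ × ℝ × ℝ => dn δ p) p := by
    unfold dn
    fun_prop
  have h2 : DifferentiableAt ℝ (fun p : ℝ × ℝ × ℝ =>
      (p.2.1 ^ 3 * (rp p / 4 + 9 / 320 * mp p) + 7 / 40 * (rp p * mp p * p.2.1))) p := by
    unfold rp mp
    fun_prop
  exact h2.mul (h1.inv hd)

theorem AZ_zero (δ : ℝ) (hδ : 0 < δ) : fderiv ℝ (fD δ) (0, 0, 0) = 0 := by
  have hd : dn δ (0, 0, 0) ≠ 0 := AZ_dn_ne δ hδ _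
  have e : fD δ = fun p : ℝ × ℝ × ℝ => p.2.1 *
      ((p.2.1 ^ 2 * (rp p / 4 + 9 / 320 * mp p) + 7 / 40 * (rp p * mp p)) / dn δ p) := by
    funext p
    unfold fD
    ring
  have hg : DifferentiableAt ℝ (fun p : ℝ × ℝ × ℝ =>
      ((p.2.1 ^ 2 * (rp p / 4 + 9 / 320 * mp p) + 7 / 40 * (rp p * mp p)) / dn δ p))
      (0, 0, 0) := by
    have h1 : DifferentiableAt ℝ (fun p : ℝ × ℝ × ℝ => dn δ p) (0, 0, 0) := by
      unfold dn
      fun_prop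
    have h2 : DifferentiableAt ℝ (fun p : ℝ × ℝ × ℝ =>
        ((p.2.1 ^ 2 * (rp p / 4 + 9 / 320 * mp p) + 7 / 40 * (rp p * mp p)))) (0, 0, 0) := by
      unfold rp mp
      fun_prop
    exact h2.mul (h1.inv hd)
  have hf : DifferentiableAt ℝ (fun p : ℝ × ℝ × ℝ => p.2.1) (0, 0, 0) := by fun_prop
  rw [e, fderiv_fun_mul hf hg]
  ext
  all_goals simp [rp, mp]

theorem AZ_chain (δ : ℝ) (hδ : 0 < δ) (y v : ℝ × ℝ × ℝ × ℝ) :
    fderiv ℝ (cD δ).φ y v =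
      fderiv ℝ (fD δ) (y.1, y.2.1, y.2.2.1) (v.1, v.2.1, v.2.2.1) := by
  have hl : HasFDerivAt (fun p : ℝ × ℝ × ℝ × ℝ => (p.1, p.2.1, p.2.2.1))
      ((ContinuousLinearMap.fst ℝ ℝ (ℝ × ℝ × ℝ)).prod
        (((ContinuousLinearMap.fst ℝ ℝ (ℝ × ℝ)).comp
          (ContinuousLinearMap.snd ℝ ℝ (ℝ × ℝ × ℝ))).prod
        ((ContinuousLinearMap.fst ℝ ℝ ℝ).comp
          ((ContinuousLinearMap.snd ℝ ℝ (ℝ × ℝ)).comp
            (ContinuousLinearMap.snd ℝ ℝ (ℝ × ℝ × ℝ)))))) y :=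
    ((ContinuousLinearMap.fst ℝ ℝ (ℝ × ℝ × ℝ)).prod
        (((ContinuousLinearMap.fst ℝ ℝ (ℝ × ℝ)).comp
          (ContinuousLinearMap.snd ℝ ℝ (ℝ × ℝ × ℝ))).prod
        ((ContinuousLinearMap.fst ℝ ℝ ℝ).comp
          ((ContinuousLinearMap.snd ℝ ℝ (ℝ × ℝ)).comp
            (ContinuousLinearMap.snd ℝ ℝ (ℝ × ℝ × ℝ)))))).hasFDerivAt
  have hc := ((AZ_diff δ hδ (y.1, y.2.1, y.2.2.1)).hasFDerivAt).comp y hl
  have e : (cD δ).φ = fD δ ∘ fun p : ℝ × ℝ × ℝ × ℝ => (p.1, p.2.1, p.2.2.1) := rfl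
  rw [e, hc.fderiv]
  rfl

theorem hAZ (_hAF : StAF) : StAZ := by
  intro N A T ν v κ l δ hA hT hδ hX
  have hA0 : ∀ i j, A i j = 0 := by
    intro i j
    have h1 : ‖A i j‖ ^ 2 ≤ XX A := by
      unfold XX
      calc ‖A i j‖ ^ 2 ≤ ∑ j', ‖A i j'‖ ^ 2 :=
            Finset.single_le_sum (f := fun j' => ‖A i j'‖ ^ 2)
              (fun j' _ => by positivity) (Finset.mem_univ j)
        _ ≤ ∑ i', ∑ j', ‖A i' j'‖ ^ 2 :=
            Finset.single_le_sum (f := fun i' => ∑ j', ‖A i' j'‖ ^ 2)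
              (fun i' _ => Finset.sum_nonneg (fun j' _ => by positivity)) (Finset.mem_univ i)
    have h2 : ‖A i j‖ = 0 := by
      have h3 : ‖A i j‖ ^ 2 ≤ 0 := le_trans h1 hX
      have h4 : ‖A i j‖ ^ 2 = 0 := le_antisymm h3 (by positivity)
      exact pow_eq_zero_iff (two_ne_zero) |>.1 h4
    exact norm_eq_zero.1 h2
  have hAA : A = fun _ _ => 0 := by
    funext i j
    exact hA0 i j
  subst hAA
  have hJ : J3 (fun (_ _ : Fin 2) => (0 : EE N)) = (0, 0, 0) := by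
    simp [J3, XX, YY, ZZ, zz, Hv]
  have hg : ∀ k, g3 (fun (_ _ : Fin 2) => (0 : EE N)) T k = 0 := by
    intro k
    simp [g3, gX, gY, gZ, gz, zz, Hv]
  have hXk : ∀ k, gX (fun (_ _ : Fin 2) => (0 : EE N)) T k = 0 := by
    intro k
    simp [gX]
  have hYk : ∀ k, gY (fun (_ _ : Fin 2) => (0 : EE N)) T k = 0 := by
    intro k
    simp [gY, Hv]
  have hZk : ∀ k, gZ (fun (_ _ : Fin 2) => (0 : EE N)) T k = 0 := by
    intro k
    simp [gZ, gz, zz, Hv]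
  have hJ4 : J4 l (fun (_ _ : Fin 2) => (0 : EE N)) ν =
      (0, 0, 0, ‖Wl l (fun (_ _ : Fin 2) => (0 : EE N)) ν‖ ^ 2) := by
    simp [J4, XX, YY, ZZ, zz, Hv]
  have hfd : fD δ (0, 0, 0) = 0 := by simp [fD]
  have h1d : a1D δ (0, 0, 0) = 0 := by simp [a1D, rp, mp]
  have h2d : a2D δ (0, 0, 0) = 0 := by simp [a2D, rp, mp, hfd]
  have h3d : a3D δ (0, 0, 0) = 0 := by simp [a3D]
  have hNa : Na (cD δ) (fun (_ _ : Fin 2) => (0 : EE N)) = 0 := by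
    simp [Na, Uv, Hv]
  have hgph : ∀ k, gph l (cD δ) (fun (_ _ : Fin 2) => (0 : EE N)) T ν v k = 0 := by
    intro k
    unfold gph
    rw [AZ_chain δ hδ, hJ4]
    show (fderiv ℝ (fD δ) (0, 0, 0)) _ = 0
    rw [AZ_zero δ hδ]
    rfl
  have hhph : hph l (cD δ) (fun (_ _ : Fin 2) => (0 : EE N)) T ν v = 0 := by
    unfold hph
    have e1 : fderiv ℝ (cD δ).φ (J4 l (fun (_ _ : Fin 2) => (0 : EE N)) ν)
        (h4 l (fun (_ _ : Fin 2) => (0 : EE N)) T ν v) = 0 := by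
      rw [AZ_chain δ hδ, hJ4]
      show (fderiv ℝ (fD δ) (0, 0, 0)) _ = 0
      rw [AZ_zero δ hδ]
      rfl
    have e2 : ∀ k, (fun y => fderiv ℝ (cD δ).φ y
        (g4 l (fun (_ _ : Fin 2) => (0 : EE N)) T ν v k)) = fun _ => 0 := by
      intro k
      funext y
      rw [AZ_chain δ hδ]
      have e3 : ((g4 l (fun (_ _ : Fin 2) => (0 : EE N)) T ν v k).1,
          (g4 l (fun (_ _ : Fin 2) => (0 : EE N)) T ν v k).2.1,
          (g4 l (fun (_ _ : Fin 2) => (0 : EE N)) T ν v k).2.2.1) =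
          ((0 : ℝ × ℝ × ℝ)) := by
        simp only [g4, hXk, hYk, hZk]
        rfl
      rw [e3, map_zero]
    rw [e1]
    have e4 : ∀ k, fderiv ℝ (fun y => fderiv ℝ (cD δ).φ y
        (g4 l (fun (_ _ : Fin 2) => (0 : EE N)) T ν v k))
        (J4 l (fun (_ _ : Fin 2) => (0 : EE N)) ν)
        (g4 l (fun (_ _ : Fin 2) => (0 : EE N)) T ν v k) = 0 := by
      intro k
      rw [e2 k]
      simp
    simp [e4]
  have hVa : ∀ k, Va κ (cD δ) (fun (_ _ : Fin 2) => (0 : EE N)) v k = 0 := by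
    intro k
    unfold Va
    rw [hJ]
    have : (cD δ).a₂ (0, 0, 0) = 0 := h2d
    rw [this]
    simp
  have hdVa : dVa κ (cD δ) (fun (_ _ : Fin 2) => (0 : EE N)) T ν v = 0 := by
    unfold dVa
    rw [hJ, hNa]
    have : (cD δ).a₂ (0, 0, 0) = 0 := h2d
    rw [this]
    simp [hg]
  unfold Ig dvA
  rw [hhph, hdVa, hJ, hfd]
  simp [hgph, hVa]

end Pool.Agent.Helper98.CL
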