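import Mathlib
import Pool.Agent.Helper32.CL.St1
import Pool.Agent.Helper32.CL.St2
import Pool.Agent.Helper32.CL.St3

set_option autoImplicit false

namespace Pool.Agent.Helper98.CL

open Helper32.CL Helper35.PI Helper35.PI2 Pool.Agent.Helper35.CL
open scoped ContDiff Manifold Topology ENNReal BigOperators
open MeasureTheory Set Filter

theorem IN_rho_lim (Y : ℝ) (hY : 0 ≤ Y) :
    Tendsto (fun j : ℕ => Y ^ 4 / (Y ^ 4 + (1 / ((j : ℝ) + 1)) ^ 4)
      * (1 - Y ^ 4 / (Y ^ 4 + (1 / ((j : ℝ) + 1)) ^ 4))) atTop (𝓝 0) ∧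
    Tendsto (fun j : ℕ => (1 - Y ^ 4 / (Y ^ 4 + (1 / ((j : ℝ) + 1)) ^ 4)) * Y)
      atTop (𝓝 0) := by
  rcases hY.eq_or_lt with h | h
  · subst h
    constructor
    · simp
    · simp
  · have h4 : (0 : ℝ) < Y ^ 4 := by positivity
    have h1 : Tendsto (fun j : ℕ => 1 / ((j : ℝ) + 1)) atTop (𝓝 0) :=
      tendsto_one_div_add_atTop_nhds_zero_nat
    have h2 : Tendsto (fun j : ℕ => Y ^ 4 / (Y ^ 4 + (1 / ((j : ℝ) + 1)) ^ 4)) atTop
        (𝓝 (Y ^ 4 / (Y ^ 4 + 0 ^ 4))) := by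
      refine Tendsto.div tendsto_const_nhds (tendsto_const_nhds.add (h1.pow 4)) ?_
      simp [h4.ne']
    have h3 : Y ^ 4 / (Y ^ 4 + 0 ^ 4) = 1 := by
      simp [h4.ne']
    rw [h3] at h2
    constructor
    · have := h2.mul (tendsto_const_nhds (x := (1 : ℝ)) |>.sub h2)
      simpa using this
    · have := (tendsto_const_nhds (x := (1 : ℝ)) |>.sub h2).mul_const Y
      simpa using this

theorem hIN (hMU : StMU) (hTD : StTD) (hDC : Helper32.CL.StDC) (hPS : StPS) (hCI1 : StCI1)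
    (hGB : StGB) (hAF : StAF) (hGA : StGA) (hCN : StCN) (hEW : StEW) : StIN := by
  intro c₀ hc₀
  obtain ⟨η, C, hη, hC, hP⟩ := hPS c₀ hc₀
  refine ⟨η, C, hη, hC, ?_⟩
  intro N M _ _ _ _ _ _ _ F c χ hS hpin t₁ t₂ h12 ht₂
  have hF : IsMCF (n := 2) F := hS.mcf
  have hcD := hAF.1
  have hpin1 : ∀ (q : M) (t : ℝ), t < 0 →
      AA (n := 2) F q t ≤ ‖HH (n := 2) F q t‖ ^ 2 := by
    intro q t ht
    have h1 := hpin q t ht
    have h2 : 0 ≤ ‖HH (n := 2) F q t‖ ^ 2 := by positivity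
    nlinarith
  obtain ⟨s, _, hs⟩ := hMU 2 N M F c χ hS
  obtain ⟨hTDc, _⟩ := hTD 2 N M F c χ hS
  obtain ⟨hg2, hg20, hgg, hgg1, hth, hGBd⟩ := hGB hcD N M F hF
  obtain ⟨cF, cH, _, _⟩ := hCN N M F hF
  obtain ⟨cw, cg1, _⟩ := hEW N M F c χ hS
  -- continuity on slices
  have sl : ∀ {V : Type} [TopologicalSpace V] {g : M → ℝ → V}, CST g → ∀ t < 0,
      Continuous (fun q => g q t) := by
    intro V _ g hg t ht
    have h1 : Continuous (fun q : M => (q, t)) := by fun_prop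
    have h2 : ∀ q : M, (q, t) ∈ (univ : Set M) ×ˢ Iio (0 : ℝ) := fun q => ⟨mem_univ _, ht⟩
    exact ContinuousOn.comp_continuous hg h1 h2
  have cY : CST (fun q t => ‖HH (n := 2) F q t‖ ^ 2) := by
    have : ContinuousOn (fun z : M × ℝ => ‖HH (n := 2) F z.1 z.2‖ ^ 2)
        (univ ×ˢ Iio 0) := (ContinuousOn.norm cH).pow 2
    exact this
  have cFn : CST (fun q t => ‖F q t‖ ^ 2) := by
    have : ContinuousOn (fun z : M × ℝ => ‖F z.1 z.2‖ ^ 2)
        (univ ×ˢ Iio 0) := (ContinuousOn.norm cF).pow 2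
    exact this
  have c4 : CST (fun (_ : M) (t : ℝ) => 4 * t ^ 2) := by
    have : ContinuousOn (fun z : M × ℝ => 4 * z.2 ^ 2)
        (univ ×ˢ Iio 0) := by fun_prop
    exact this
  -- the error function
  let er : M → ℝ → ℝ := fun q t => g2F F q t + (‖HH (n := 2) F q t‖ ^ 2) ^ 2
        + ‖HH (n := 2) F q t‖ ^ 2 * (‖F q t‖ ^ 2 / (4 * t ^ 2))
  have cer : CST er := by
    have hq : ContinuousOn (fun z : M × ℝ => ‖F z.1 z.2‖ ^ 2 / (4 * z.2 ^ 2))
        (univ ×ˢ Iio 0) := by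
      refine ContinuousOn.div cFn c4 ?_
      intro z hz
      have : z.2 < 0 := hz.2
      have : z.2 ^ 2 ≠ 0 := pow_ne_zero 2 this.ne
      positivity
    have : ContinuousOn (fun z : M × ℝ => g2F F z.1 z.2
        + (‖HH (n := 2) F z.1 z.2‖ ^ 2) ^ 2
        + ‖HH (n := 2) F z.1 z.2‖ ^ 2 * (‖F z.1 z.2‖ ^ 2 / (4 * z.2 ^ 2)))
        (univ ×ˢ Iio 0) := (ContinuousOn.add hg2 (ContinuousOn.pow cY 2)).add
          (ContinuousOn.mul cY hq)
    exact this
  let YT : M → ℝ → ℝ := fun q t => ‖HH (n := 2) F q t‖ ^ 2 * thF 2 F q t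
  have cYT : CST YT := ContinuousOn.mul cY hth
  -- compactness bound
  have bd : ∀ {g : M → ℝ → ℝ}, CST g → ∃ B : ℝ, ∀ q, ∀ t ∈ Icc t₁ t₂, |g q t| ≤ B := by
    intro g hg
    have hK : IsCompact ((univ : Set M) ×ˢ Icc t₁ t₂) := isCompact_univ.prod isCompact_Icc
    have hsub : ((univ : Set M) ×ˢ Icc t₁ t₂) ⊆ univ ×ˢ Iio 0 := by
      intro z hz
      exact ⟨mem_univ _, lt_of_le_of_lt hz.2.2 ht₂⟩
    obtain ⟨B, hB⟩ := hK.exists_bound_of_continuousOn (ContinuousOn.mono hg hsub)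
    refine ⟨B, fun q t ht => ?_⟩
    have := hB (q, t) ⟨mem_univ _, ht⟩
    simpa [Real.norm_eq_abs] using this
  -- functions of time
  let δ : ℕ → ℝ := fun j => 1 / ((j : ℝ) + 1)
  have hδ : ∀ j, 0 < δ j := fun j => by
    show (0 : ℝ) < 1 / ((j : ℝ) + 1)
    positivity
  let Bt : ℝ → ℝ := fun t => (∫ q, (g1F F q t + ‖HH (n := 2) F q t‖ ^ 2 * wF F q t)
          ∂muM 2 F c χ t) / (4 * t ^ 2)
  have icont : ∀ {g : ℝ → ℝ}, ContinuousOn g (Iio 0) →
      IntervalIntegrable g volume t₁ t₂ := by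
    intro g hg
    refine ContinuousOn.intervalIntegrable ?_
    refine hg.mono ?_
    rw [uIcc_of_le h12]
    intro t ht
    exact lt_of_le_of_lt ht.2 ht₂
  have cYw : CST (fun q t => ‖HH (n := 2) F q t‖ ^ 2 * wF F q t) := ContinuousOn.mul cY cw
  have cBt : ContinuousOn Bt (Iio 0) := by
    have h1 : ContinuousOn (fun t => (∫ q, g1F F q t ∂muM 2 F c χ t)
        + ∫ q, ‖HH (n := 2) F q t‖ ^ 2 * wF F q t ∂muM 2 F c χ t) (Iio 0) :=
      cg1.add (hTDc _ cYw)
    have h2 : ContinuousOn (fun t => (∫ q, (g1F F q t + ‖HH (n := 2) F q t‖ ^ 2 * wF F q t)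
          ∂muM 2 F c χ t)) (Iio 0) := by
      refine h1.congr ?_
      intro t ht
      obtain ⟨_, _, hcont⟩ := hs t ht
      obtain ⟨g1c, _⟩ := hGA N M F hF t ht
      exact integral_add (hcont _ g1c).1 (hcont _ (sl cYw t ht)).1
    refine ContinuousOn.div h2 (by fun_prop) ?_
    intro t ht
    have : t ^ 2 ≠ 0 := pow_ne_zero 2 (ne_of_lt ht)
    positivity
  -- key inequality for each δ
  have key : ∀ d : ℝ, 0 < d →
      η * (∫ t in t₁..t₂, ∫ q, ggF F q t * (rhF d F q t * YT q t) ∂muM 2 F c χ t)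
        ≤ (∫ q, ‖HH (n := 2) F q t₁‖ ^ 2 ∂muM 2 F c χ t₁)
          + C * (∫ t in t₁..t₂, Bt t)
          + C * (∫ t in t₁..t₂, ∫ q, rhF d F q t * (1 - rhF d F q t) * er q t
            ∂muM 2 F c χ t) := by
    intro d hd
    obtain ⟨crh, cph, _, _, _⟩ := hGBd d hd
    obtain ⟨hCI, hCIc⟩ := hCI1 N M F c χ hS hpin1 d hd
    have cA : CST (fun q t => ggF F q t * (rhF d F q t * YT q t)) :=
      ContinuousOn.mul hgg (ContinuousOn.mul crh cYT)
    have cE : CST (fun q t => rhF d F q t * (1 - rhF d F q t) * er q t) :=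
      ContinuousOn.mul (ContinuousOn.mul crh (ContinuousOn.sub continuousOn_const crh)) cer
    have hA := hTDc _ cA
    have hE := hTDc _ cE
    -- pointwise in time
    have pt : ∀ t < 0, η * (∫ q, ggF F q t * (rhF d F q t * YT q t) ∂muM 2 F c χ t)
        - C * Bt t - C * (∫ q, rhF d F q t * (1 - rhF d F q t) * er q t ∂muM 2 F c χ t)
        ≤ ∫ q, IgF d F q t ∂muM 2 F c χ t := by
      intro t ht
      obtain ⟨_, _, hcont⟩ := hs t ht
      obtain ⟨g1c, _⟩ := hGA N M F hF t ht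
      have i1 := (hcont _ (sl cA t ht)).1
      have c2 : Continuous (fun q => g1F F q t + ‖HH (n := 2) F q t‖ ^ 2 * wF F q t) :=
        g1c.add (sl cYw t ht)
      have i2 := (hcont _ c2).1
      have i3 := (hcont _ (sl cE t ht)).1
      have i4 := (hcont _ (hCI t ht).1).1
      have e1 : η * (∫ q, ggF F q t * (rhF d F q t * YT q t) ∂muM 2 F c χ t)
        - C * Bt t - C * (∫ q, rhF d F q t * (1 - rhF d F q t) * er q t ∂muM 2 F c χ t)
        = ∫ q, (η * (ggF F q t * (rhF d F q t * YT q t))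
          - C * ((g1F F q t + ‖HH (n := 2) F q t‖ ^ 2 * wF F q t) / (4 * t ^ 2))
          - C * (rhF d F q t * (1 - rhF d F q t) * er q t)) ∂muM 2 F c χ t := by
        rw [integral_sub, integral_sub, integral_const_mul, integral_const_mul,
          integral_const_mul, integral_div]
        · exact i1.const_mul η
        · exact (i2.div_const _).const_mul C
        · exact (i1.const_mul η).sub ((i2.div_const _).const_mul C)
        · exact i3.const_mul C
      rw [e1]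
      refine integral_mono (((i1.const_mul η).sub ((i2.div_const _).const_mul C)).sub
        (i3.const_mul C)) i4 ?_
      intro q
      exact hP N M F hF t ht q (hpin q t ht) d hd
    -- integrate in time
    have hneg : IntervalIntegrable (fun t => -∫ q, IgF d F q t ∂muM 2 F c χ t) volume
        t₁ t₂ := icont (ContinuousOn.neg hCIc)
    have ftc : ∫ t in t₁..t₂, -∫ q, IgF d F q t ∂muM 2 F c χ t
        = (∫ q, ggF F q t₂ * phF d F q t₂ ∂muM 2 F c χ t₂)
          - ∫ q, ggF F q t₁ * phF d F q t₁ ∂muM 2 F c χ t₁ := by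
      refine intervalIntegral.integral_eq_sub_of_hasDerivAt
        (f := fun t => ∫ q, ggF F q t * phF d F q t ∂muM 2 F c χ t) ?_ hneg
      intro t ht
      rw [uIcc_of_le h12] at ht
      exact (hCI t (lt_of_le_of_lt ht.2 ht₂)).2.2.2
    have ht₁ : t₁ < 0 := lt_of_le_of_lt h12 ht₂
    have u1 := (hCI t₁ ht₁).2.2.1
    have u2 := (hCI t₂ ht₂).2.1
    have hJ : ∫ t in t₁..t₂, ∫ q, IgF d F q t ∂muM 2 F c χ t
        ≤ ∫ q, ‖HH (n := 2) F q t₁‖ ^ 2 ∂muM 2 F c χ t₁ := by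
      have : ∫ t in t₁..t₂, -∫ q, IgF d F q t ∂muM 2 F c χ t
          = -∫ t in t₁..t₂, ∫ q, IgF d F q t ∂muM 2 F c χ t :=
        intervalIntegral.integral_neg
      linarith
    have hL : ∫ t in t₁..t₂, (η * (∫ q, ggF F q t * (rhF d F q t * YT q t) ∂muM 2 F c χ t)
        - C * Bt t - C * (∫ q, rhF d F q t * (1 - rhF d F q t) * er q t ∂muM 2 F c χ t))
        = η * (∫ t in t₁..t₂, ∫ q, ggF F q t * (rhF d F q t * YT q t) ∂muM 2 F c χ t)
          - C * (∫ t in t₁..t₂, Bt t)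
          - C * (∫ t in t₁..t₂, ∫ q, rhF d F q t * (1 - rhF d F q t) * er q t
            ∂muM 2 F c χ t) := by
      rw [intervalIntegral.integral_sub, intervalIntegral.integral_sub,
        intervalIntegral.integral_const_mul, intervalIntegral.integral_const_mul,
        intervalIntegral.integral_const_mul]
      · exact (icont hA).const_mul η
      · exact (icont cBt).const_mul C
      · exact ((icont hA).const_mul η).sub ((icont cBt).const_mul C)
      · exact (icont hE).const_mul C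
    have hmono : ∫ t in t₁..t₂, (η * (∫ q, ggF F q t * (rhF d F q t * YT q t)
          ∂muM 2 F c χ t)
        - C * Bt t - C * (∫ q, rhF d F q t * (1 - rhF d F q t) * er q t ∂muM 2 F c χ t))
        ≤ ∫ t in t₁..t₂, ∫ q, IgF d F q t ∂muM 2 F c χ t := by
      refine intervalIntegral.integral_mono_on h12 ?_ (icont hCIc) ?_
      · exact (((icont hA).const_mul η).sub ((icont cBt).const_mul C)).sub
          ((icont hE).const_mul C)
      · intro t ht
        exact pt t (lt_of_le_of_lt ht.2 ht₂)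
    rw [hL] at hmono
    linarith
  -- limits
  have rb : ∀ j q, ∀ t < 0, 0 ≤ rhF (δ j) F q t ∧ rhF (δ j) F q t ≤ 1 := by
    intro j q t ht
    exact (hGBd (δ j) (hδ j)).2.2.2.2 q t ht
  have lim1 : Tendsto (fun j => ∫ t in t₁..t₂, ∫ q,
      rhF (δ j) F q t * (1 - rhF (δ j) F q t) * er q t ∂muM 2 F c χ t) atTop (𝓝 0) := by
    obtain ⟨B, hB⟩ := bd cer
    refine hDC 2 N M F c χ hS t₁ t₂ B h12 ht₂
      (fun j q t => rhF (δ j) F q t * (1 - rhF (δ j) F q t) * er q t) ?_ ?_ ?_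
    · intro j
      have crh := (hGBd (δ j) (hδ j)).1
      exact ContinuousOn.mul
        (ContinuousOn.mul crh (ContinuousOn.sub continuousOn_const crh)) cer
    · intro j q t ht
      have ht0 : t < 0 := lt_of_le_of_lt ht.2 ht₂
      obtain ⟨r0, r1⟩ := rb j q t ht0
      have hb := hB q t ht
      have h1 : |rhF (δ j) F q t * (1 - rhF (δ j) F q t)| ≤ 1 := by
        rw [abs_le]
        constructor <;> nlinarith
      rw [abs_mul]
      calc |rhF (δ j) F q t * (1 - rhF (δ j) F q t)| * |er q t|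
          ≤ 1 * |er q t| := mul_le_mul_of_nonneg_right h1 (abs_nonneg _)
        _ ≤ B := by rw [one_mul]; exact hb
    · intro q t _
      have h1 := (IN_rho_lim (‖HH (n := 2) F q t‖ ^ 2) (by positivity)).1
      have h2 := h1.mul_const (er q t)
      rw [zero_mul] at h2
      exact h2
  have lim2 : Tendsto (fun j => ∫ t in t₁..t₂, ∫ q,
      ggF F q t * ((1 - rhF (δ j) F q t) * YT q t) ∂muM 2 F c χ t) atTop (𝓝 0) := by
    obtain ⟨B, hB⟩ := bd cYT
    refine hDC 2 N M F c χ hS t₁ t₂ B h12 ht₂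
      (fun j q t => ggF F q t * ((1 - rhF (δ j) F q t) * YT q t)) ?_ ?_ ?_
    · intro j
      have crh := (hGBd (δ j) (hδ j)).1
      exact ContinuousOn.mul hgg
        (ContinuousOn.mul (ContinuousOn.sub continuousOn_const crh) cYT)
    · intro j q t ht
      have ht0 : t < 0 := lt_of_le_of_lt ht.2 ht₂
      obtain ⟨r0, r1⟩ := rb j q t ht0
      obtain ⟨G0, G1⟩ := hgg1 q t ht0
      have hb := hB q t ht
      have h1 : |1 - rhF (δ j) F q t| ≤ 1 := by
        rw [abs_le]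
        constructor <;> linarith
      have h2 : |ggF F q t| ≤ 1 := by
        rw [abs_of_pos G0]
        exact G1
      rw [abs_mul, abs_mul]
      calc |ggF F q t| * (|1 - rhF (δ j) F q t| * |YT q t|)
          ≤ 1 * (1 * |YT q t|) := by
            refine mul_le_mul h2 (mul_le_mul_of_nonneg_right h1 (abs_nonneg _)) ?_ ?_
            · positivity
            · norm_num
        _ ≤ B := by rw [one_mul, one_mul]; exact hb
    · intro q t _
      have h1 := (IN_rho_lim (‖HH (n := 2) F q t‖ ^ 2) (by positivity)).2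
      have h2 := (h1.mul_const (thF 2 F q t)).const_mul (ggF F q t)
      rw [zero_mul, mul_zero] at h2
      refine h2.congr ?_
      intro j
      show ggF F q t * ((1 - (‖HH (n := 2) F q t‖ ^ 2) ^ 4 /
        ((‖HH (n := 2) F q t‖ ^ 2) ^ 4 + (1 / ((j : ℝ) + 1)) ^ 4)) *
          ‖HH (n := 2) F q t‖ ^ 2 * thF 2 F q t) =
        ggF F q t * ((1 - rhF (δ j) F q t) * (‖HH (n := 2) F q t‖ ^ 2 * thF 2 F q t))
      rw [mul_assoc]
      rfl
  -- splitting
  have split : ∀ j, (∫ t in t₁..t₂, ∫ q, ggF F q t * YT q t ∂muM 2 F c χ t)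
      = (∫ t in t₁..t₂, ∫ q, ggF F q t * (rhF (δ j) F q t * YT q t) ∂muM 2 F c χ t)
        + ∫ t in t₁..t₂, ∫ q, ggF F q t * ((1 - rhF (δ j) F q t) * YT q t)
          ∂muM 2 F c χ t := by
    intro j
    have crh := (hGBd (δ j) (hδ j)).1
    have cA : CST (fun q t => ggF F q t * (rhF (δ j) F q t * YT q t)) :=
      ContinuousOn.mul hgg (ContinuousOn.mul crh cYT)
    have cA' : CST (fun q t => ggF F q t * ((1 - rhF (δ j) F q t) * YT q t)) :=
      ContinuousOn.mul hgg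
        (ContinuousOn.mul (ContinuousOn.sub continuousOn_const crh) cYT)
    rw [← intervalIntegral.integral_add (icont (hTDc _ cA)) (icont (hTDc _ cA'))]
    refine intervalIntegral.integral_congr ?_
    intro t ht
    rw [uIcc_of_le h12] at ht
    have ht0 : t < 0 := lt_of_le_of_lt ht.2 ht₂
    obtain ⟨_, _, hcont⟩ := hs t ht0
    have := integral_add (hcont _ (sl cA t ht0)).1 (hcont _ (sl cA' t ht0)).1
    show ∫ q, ggF F q t * YT q t ∂muM 2 F c χ t
      = (∫ q, ggF F q t * (rhF (δ j) F q t * YT q t) ∂muM 2 F c χ t)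
        + ∫ q, ggF F q t * ((1 - rhF (δ j) F q t) * YT q t) ∂muM 2 F c χ t
    rw [← this]
    congr 1
    funext q
    ring
  have final : ∀ j, η * (∫ t in t₁..t₂, ∫ q, ggF F q t * YT q t ∂muM 2 F c χ t)
      ≤ (∫ q, ‖HH (n := 2) F q t₁‖ ^ 2 ∂muM 2 F c χ t₁)
          + C * (∫ t in t₁..t₂, Bt t)
          + C * (∫ t in t₁..t₂, ∫ q, rhF (δ j) F q t * (1 - rhF (δ j) F q t) * er q t
            ∂muM 2 F c χ t)
          + η * ∫ t in t₁..t₂, ∫ q, ggF F q t * ((1 - rhF (δ j) F q t) * YT q t)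
          ∂muM 2 F c χ t := by
    intro j
    rw [split j, mul_add]
    have := key (δ j) (hδ j)
    linarith
  have lim3 : Tendsto (fun j => (∫ q, ‖HH (n := 2) F q t₁‖ ^ 2 ∂muM 2 F c χ t₁)
          + C * (∫ t in t₁..t₂, Bt t)
          + C * (∫ t in t₁..t₂, ∫ q, rhF (δ j) F q t * (1 - rhF (δ j) F q t) * er q t
            ∂muM 2 F c χ t)
          + η * ∫ t in t₁..t₂, ∫ q, ggF F q t * ((1 - rhF (δ j) F q t) * YT q t)
          ∂muM 2 F c χ t) atTop
      (𝓝 ((∫ q, ‖HH (n := 2) F q t₁‖ ^ 2 ∂muM 2 F c χ t₁)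
          + C * (∫ t in t₁..t₂, Bt t) + C * 0 + η * 0)) :=
    (tendsto_const_nhds.add (lim1.const_mul C)).add (lim2.const_mul η)
  have := ge_of_tendsto' lim3 final
  rw [mul_zero, mul_zero, add_zero, add_zero] at this
  exact this

end Pool.Agent.Helper98.CL
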